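import Pool.Agent.R128.Retractions

set_option autoImplicit false

/-!
# Retractions of complete lattices (MP_31821e_co, Q2)

The starting file `BoundedChain` shows that the retractions of a lattice need not form a lattice
(Q1). Here Q2 is answered: the retractions of a complete lattice form a complete lattice, and
conversely.

Proof. Let `R` be a set of retractions and `p x` the supremum of the `r x`, `r ∈ R`. Then `p` is
monotone and `p (p x) ≥ r (r x) = r x`, so `p (p x) ≥ p x`. Let `q x` be the infimum of the set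
`D x` of all `y ≥ p x` with `p y ≤ y`. Then `q x ∈ D x`, `q` is monotone, `q x ≥ p x`, and
`q (q x) = q x` because `q x ∈ D (q x)` and `p (q x) = q x`. If `s` is a retraction above all
members of `R`, then `s x ≥ p x` and `p (s x) ≤ s (s x) = s x`, so `q x ≤ s x`.
-/

namespace Pool.Agent.Results.MP_31821e_co.CompleteLattices

open Pool.Agent.R128.Retractions

universe u

/-- Every set of retractions has a least upper bound if every subset of `L` has a least upper
bound and a greatest lower bound. -/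
theorem exists_isLUB {L : Type u} [Lattice L]
    (h : ∀ A : Set L, (∃ a, IsLUB A a) ∧ ∃ a, IsGLB A a) (R : Set (Retr L)) :
    ∃ t, IsLUB R t := by
  have hS : ∀ x : L, ∃ a, IsLUB ((fun r : Retr L => r.1 x) '' R) a := fun x => (h _).1
  choose p hp using hS
  have hrp : ∀ r ∈ R, ∀ x, r.1 x ≤ p x := fun r hr x => (hp x).1 ⟨r, hr, rfl⟩
  have hpmono : Monotone p := by
    intro x y hxy
    refine (hp x).2 ?_
    rintro _ ⟨r, hr, rfl⟩
    exact (r.2.1 hxy).trans (hrp r hr y)
  have hpp : ∀ x, p x ≤ p (p x) := by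
    intro x
    refine (hp x).2 ?_
    rintro _ ⟨r, hr, rfl⟩
    calc r.1 x = r.1 (r.1 x) := (r.2.2 x).symm
      _ ≤ r.1 (p x) := r.2.1 (hrp r hr x)
      _ ≤ p (p x) := hrp r hr _
  have hI : ∀ x : L, ∃ a, IsGLB {y | p x ≤ y ∧ p y ≤ y} a := fun x => (h _).2
  choose q hq using hI
  have hpq : ∀ x, p x ≤ q x := fun x => (hq x).2 fun y hy => hy.1
  have hpqq : ∀ x, p (q x) ≤ q x := fun x =>
    (hq x).2 fun y hy => (hpmono ((hq x).1 hy)).trans hy.2
  have hqpq : ∀ x, q x ≤ p (q x) := fun x =>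
    (hq x).1 ⟨(hpp x).trans (hpmono (hpq x)), hpmono (hpqq x)⟩
  have hqmono : Monotone q := fun x y hxy =>
    (hq x).1 ⟨(hpmono hxy).trans (hpq y), hpqq y⟩
  have hqq : ∀ x, q (q x) = q x := fun x =>
    le_antisymm ((hq (q x)).1 ⟨hpqq x, hpqq x⟩) ((hqpq x).trans (hpq (q x)))
  refine ⟨⟨q, hqmono, hqq⟩, fun r hr x => (hrp r hr x).trans (hpq x), fun s hs x => ?_⟩
  have hps : ∀ y, p y ≤ s.1 y := by
    intro y
    refine (hp y).2 ?_
    rintro _ ⟨r, hr, rfl⟩
    exact hs hr y
  refine (hq x).1 ⟨hps x, ?_⟩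
  calc p (s.1 x) ≤ s.1 (s.1 x) := hps _
    _ = s.1 x := s.2.2 x

/-- **Q2 of MP_31821e_co (positive answer), with the converse.** For every nonempty lattice `L` the
poset of the retractions of `L` is a complete lattice (every set of retractions has a least upper
bound and a greatest lower bound among the retractions) if and only if `L` is complete. -/
theorem result (L : Type u) [Lattice L] [Nonempty L] :
    (∀ R : Set (Retr L), (∃ t, IsLUB R t) ∧ ∃ t, IsGLB R t) ↔
      ∀ A : Set L, (∃ a, IsLUB A a) ∧ ∃ a, IsGLB A a := by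
  constructor
  · intro h A
    obtain ⟨x₀⟩ := ‹Nonempty L›
    let c : L → Retr L := fun a => ⟨fun _ => a, fun _ _ _ => le_rfl, fun _ => rfl⟩
    obtain ⟨⟨t, ht⟩, ⟨s, hs⟩⟩ := h (c '' A)
    refine ⟨⟨t.1 x₀, fun a ha => ht.1 ⟨a, ha, rfl⟩ x₀, fun b hb => ?_⟩,
      ⟨s.1 x₀, fun a ha => hs.1 ⟨a, ha, rfl⟩ x₀, fun b hb => ?_⟩⟩
    · have : t ≤ c b := ht.2 (by
        rintro _ ⟨a, ha, rfl⟩
        exact fun _ => hb ha)
      exact this x₀
    · have : c b ≤ s := hs.2 (by
        rintro _ ⟨a, ha, rfl⟩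
        exact fun _ => hb ha)
      exact this x₀
  · intro h R
    refine ⟨exists_isLUB h R, ?_⟩
    obtain ⟨t, ht⟩ := exists_isLUB h (lowerBounds R)
    exact ⟨t, isLUB_lowerBounds.1 ht⟩

end Pool.Agent.Results.MP_31821e_co.CompleteLattices
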